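import Pool.Agent.Work.MP_46fa68_56.HA

/-! Block HC (helper41): the hook product of a row, geometric bound. -/

set_option autoImplicit false

open Finset

namespace Pool.JM.LR

namespace HCaux

open HAaux

/-- `(a+1)/(a+1-y) ≤ g^y` for `0 ≤ y ≤ a` when `g^a = a+1` -/
theorem fac_pow {a y : ℕ} (ha : 1 ≤ a) (hya : y ≤ a) {g : ℝ} (hg : 1 ≤ g)
    (hga : g ^ a = (a : ℝ) + 1) :
    ((a : ℝ) + 1) / ((a : ℝ) + 1 - y) ≤ g ^ y := by
  have ha0 : (0 : ℝ) < a := by exact_mod_cast ha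
  have hy : (y : ℝ) ≤ a := by exact_mod_cast hya
  have hy0 : (0 : ℝ) ≤ y := Nat.cast_nonneg _
  have hpos : (0 : ℝ) < (a : ℝ) + 1 - y := by linarith
  have hg0 : 0 < g := by linarith
  -- weighted AM-GM
  have h1 := Real.geom_mean_le_arith_mean2_weighted (w₁ := ((a : ℝ) - y) / a) (w₂ := (y : ℝ) / a)
    (p₁ := (a : ℝ) + 1) (p₂ := 1) (div_nonneg (by linarith) ha0.le) (div_nonneg hy0 ha0.le)
    (by linarith) zero_le_one (by field_simp; ring)
  rw [Real.one_rpow, mul_one] at h1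
  have h2 : ((a : ℝ) - y) / a * ((a : ℝ) + 1) + (y : ℝ) / a * 1 = (a : ℝ) + 1 - y := by
    field_simp
    ring
  rw [h2] at h1
  -- (a+1)^((a-y)/a) = g^(a-y)
  have h3 : ((a : ℝ) + 1) ^ (((a : ℝ) - y) / a) = g ^ (a - y) := by
    rw [← hga, ← Real.rpow_natCast g a, ← Real.rpow_mul hg0.le, ← Real.rpow_natCast g (a - y)]
    congr 1
    rw [Nat.cast_sub hya]
    field_simp
  rw [h3] at h1
  rw [div_le_iff₀ hpos]
  have h4 : (a : ℝ) + 1 = g ^ y * g ^ (a - y) := by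
    rw [← hga, ← pow_add]
    congr 1
    omega
  calc (a : ℝ) + 1 = g ^ y * g ^ (a - y) := h4
    _ ≤ g ^ y * ((a : ℝ) + 1 - y) := mul_le_mul_of_nonneg_left h1 (pow_nonneg hg0.le _)

theorem hk_le (B : Finset ℕ) (x : ℕ) {g : ℝ} (ha : 1 ≤ gp B x) (hg : 1 ≤ g)
    (hga : g ^ gp B x = (gp B x : ℝ) + 1) :
    hk B x ≤ ((gp B x).factorial : ℝ) * g ^ bx B x := by
  rw [hk_eq]
  refine mul_le_mul_of_nonneg_left ?_ (Nat.cast_nonneg _)
  unfold bx
  rw [← prod_pow_eq_pow_sum]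
  have h0 : (0 : ℝ) ≤ (gp B x : ℝ) := Nat.cast_nonneg _
  refine prod_le_prod (fun z hz => ?_) fun z hz => ?_
  · exact div_nonneg (add_nonneg h0 (Nat.cast_nonneg _)) (den_pos B hz).le
  · have h1 : (1 : ℝ) ≤ (bz B x z : ℝ) := by exact_mod_cast bz_pos B hz
    have h2 := gp_le B hz
    refine le_trans (fac_le _ _ _ 1 (Nat.cast_nonneg _) h1 (by linarith) h0 zero_le_one) ?_
    exact fac_pow ha (gp_mono B (mem_filter.1 hz).2.le) hg hga

end HCaux

open HCaux in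
theorem blk_HC : Stmt_HC := by
  intro B x γ ha hγ hγa
  have ha0 : (0 : ℝ) < (gp B x : ℝ) := by exact_mod_cast ha
  have hf : (0 : ℝ) ≤ ((gp B x).factorial : ℝ) := Nat.cast_nonneg _
  set g : ℝ := ((gp B x : ℝ) + 1) ^ ((1 : ℝ) / (gp B x : ℝ)) with hgdef
  have hg1 : 1 ≤ g := Real.one_le_rpow (by linarith) (by positivity)
  have hga : g ^ gp B x = (gp B x : ℝ) + 1 := by
    rw [hgdef, ← Real.rpow_natCast, ← Real.rpow_mul (by linarith), one_div,
      inv_mul_cancel₀ ha0.ne', Real.rpow_one]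
  have hgγ : g ≤ γ := by
    refine le_of_not_gt fun h => ?_
    have h1 : γ ^ gp B x < g ^ gp B x := pow_lt_pow_left₀ h (by linarith) (by omega)
    rw [hga] at h1
    linarith
  have hk := hk_le B x ha hg1 hga
  constructor
  · refine hk.trans (mul_le_mul_of_nonneg_left ?_ hf)
    exact pow_le_pow_left₀ (by linarith) hgγ _
  · intro hle
    refine hk.trans ?_
    rw [mul_assoc]
    refine mul_le_mul_of_nonneg_left ?_ hf
    have h1 : g ^ bx B x = g ^ gp B x * g ^ (bx B x - gp B x) := by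
      rw [← pow_add]
      congr 1
      omega
    rw [h1, hga]
    exact mul_le_mul_of_nonneg_left (pow_le_pow_left₀ (by linarith) hgγ _) (by linarith)

end Pool.JM.LR
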