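import Pool.Agent.Work.MP_46fa68_11.Bridge

/-!
# MP_46fa68_co: blocks HD and ESUM
-/

set_option autoImplicit false

open Finset

namespace Pool.JM.LR

/-- the sum of the ranks -/
theorem sum_rk' (H : Finset ℕ) : ∑ h ∈ H, ((Pool.JM.rk H h : ℕ) : ℝ) =
    (H.card : ℝ) * ((H.card : ℝ) + 1) / 2 := by
  induction H using Finset.induction_on_min with
  | empty => simp
  | insert a S ha ih =>
    have hn : a ∉ S := fun h => lt_irrefl a (ha a h)
    rw [card_insert_of_notMem hn, sum_insert hn]
    have h1 : Pool.JM.rk (insert a S) a = S.card + 1 := by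
      unfold Pool.JM.rk
      rw [filter_true_of_mem, card_insert_of_notMem hn]
      intro y hy
      rcases mem_insert.1 hy with rfl | hy
      · exact le_rfl
      · exact (ha y hy).le
    have h2 : ∑ h ∈ S, ((Pool.JM.rk (insert a S) h : ℕ) : ℝ) = ∑ h ∈ S, ((Pool.JM.rk S h : ℕ) : ℝ) := by
      refine sum_congr rfl fun y hy => ?_
      congr 1
      unfold Pool.JM.rk
      rw [filter_insert, if_neg (by have := ha y hy; omega)]
    rw [h1, h2, ih]
    push_cast
    ring

theorem blk_HD : Stmt_HD := by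
  intro B x
  rw [gp_eq, bx_eq, hk_eq']
  refine ⟨fun h => ?_, fun h => ?_⟩
  · rw [Pool.JM.hk_holes]
    have h1 : (hl B x).card = 0 := by rw [hl_card, h]
    rw [card_eq_zero] at h1
    rw [h1, prod_empty]
  · set a := ln B x with ha
    have ha0 : (0 : ℝ) < a := by exact_mod_cast h
    have hb0 : (0 : ℝ) ≤ Pool.JM.bx B x := Nat.cast_nonneg _
    set μ : ℝ := ((a : ℝ) + 1) / 2 + (Pool.JM.bx B x : ℝ) / a with hμ
    have hμ0 : 0 < μ := by positivity
    have h1 : ∑ h ∈ hl B x, ((x : ℝ) - h) = a * μ := by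
      have h2 : ∀ h ∈ hl B x, ((x : ℝ) - h) = (Pool.JM.rk (hl B x) h : ℝ) + nb B x h := by
        intro h hh
        have : ((h + Pool.JM.rk (hl B x) h + nb B x h : ℕ) : ℝ) = x := by
          exact_mod_cast (sub_hole hh).symm
        push_cast at this
        linarith
      rw [sum_congr rfl h2, sum_add_distrib, sum_rk', hl_card, ← ha]
      have h3 : (∑ h ∈ hl B x, (nb B x h : ℝ)) = Pool.JM.bx B x := by exact_mod_cast sum_nb B x
      rw [h3, hμ]
      field_simp
    rw [Pool.JM.hk_holes]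
    have h2 : ∀ h ∈ hl B x, ((x : ℝ) - h) ≤ μ * Real.exp (((x : ℝ) - h) / μ - 1) := by
      intro h _
      have h3 := Real.add_one_le_exp (((x : ℝ) - h) / μ - 1)
      calc ((x : ℝ) - h) = μ * (((x : ℝ) - h) / μ - 1 + 1) := by field_simp; ring
        _ ≤ _ := mul_le_mul_of_nonneg_left h3 hμ0.le
    calc ∏ h ∈ hl B x, ((x : ℝ) - h)
        ≤ ∏ h ∈ hl B x, (μ * Real.exp (((x : ℝ) - h) / μ - 1)) := by
          refine prod_le_prod (fun h hh => ?_) h2
          have : (h : ℝ) < x := by exact_mod_cast (mem_hl.1 hh).1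
          linarith
      _ = μ ^ a * Real.exp (∑ h ∈ hl B x, (((x : ℝ) - h) / μ - 1)) := by
          rw [prod_mul_distrib, prod_const, Real.exp_sum, hl_card]
      _ = μ ^ a := by
          rw [sum_sub_distrib, ← sum_div, h1, sum_const, hl_card, nsmul_eq_mul, mul_one, ← ha,
            mul_div_assoc, div_self hμ0.ne', mul_one, sub_self, Real.exp_zero, mul_one]

theorem exp_two_le : Real.exp 2 ≤ 7.3891 := by
  have h1 := Real.exp_one_lt_d9
  have h2 : Real.exp 2 = Real.exp 1 ^ 2 := by
    rw [← Real.exp_nat_mul]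
    norm_num
  rw [h2]
  exact (pow_le_pow_left₀ (Real.exp_pos 1).le h1.le 2).trans (by norm_num)

theorem blk_ESUM : Stmt_ESUM := by
  intro n
  have he := exp_two_le
  refine ⟨?_, ?_⟩
  · have h1 : ∑ r ∈ Icc 3 n, (2 : ℝ) ^ (r - 1) / ((r - 1).factorial : ℝ) =
        ∑ i ∈ Ico 2 n, (2 : ℝ) ^ i / (i.factorial : ℝ) := by
      have e1 : Icc 3 n = (Ico 2 n).map ⟨fun i => i + 1, fun a b h => by simpa using h⟩ := by
        ext r
        simp only [mem_Icc, mem_map, mem_Ico, Function.Embedding.coeFn_mk]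
        constructor
        · rintro ⟨h1, h2⟩
          exact ⟨r - 1, by omega, by omega⟩
        · rintro ⟨i, h1, rfl⟩
          omega
      rw [e1, sum_map]
      rfl
    rw [h1]
    rcases le_or_gt 2 n with hn | hn
    · have h2 := Real.sum_le_exp_of_nonneg (x := 2) (by norm_num) n
      rw [range_eq_Ico, ← sum_Ico_consecutive _ (Nat.zero_le 2) hn] at h2
      have h3 : ∑ i ∈ Ico 0 2, (2 : ℝ) ^ i / (i.factorial : ℝ) = 3 := by
        rw [← range_eq_Ico, sum_range_succ, sum_range_succ, sum_range_zero]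
        norm_num
      rw [h3] at h2
      linarith
    · rw [Ico_eq_empty (by omega), sum_empty]
      norm_num
  · have h1 : ∑ r ∈ Icc 3 n, (2 : ℝ) ^ (r - 1) / ((r - 2).factorial : ℝ) =
        2 * ∑ i ∈ Ico 1 (n - 1), (2 : ℝ) ^ i / (i.factorial : ℝ) := by
      have e1 : Icc 3 n = (Ico 1 (n - 1)).map ⟨fun i => i + 2, fun a b h => by simpa using h⟩ := by
        ext r
        simp only [mem_Icc, mem_map, mem_Ico, Function.Embedding.coeFn_mk]
        constructor
        · rintro ⟨h1, h2⟩
          exact ⟨r - 2, by omega, by omega⟩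
        · rintro ⟨i, h1, rfl⟩
          omega
      rw [e1, sum_map, mul_sum]
      refine sum_congr rfl fun i _ => ?_
      simp only [Function.Embedding.coeFn_mk]
      rw [show i + 2 - 1 = i + 1 by omega, show i + 2 - 2 = i by omega, pow_succ]
      ring
    rw [h1]
    rcases le_or_gt 1 (n - 1) with hn | hn
    · have h2 := Real.sum_le_exp_of_nonneg (x := 2) (by norm_num) (n - 1)
      rw [range_eq_Ico, ← sum_Ico_consecutive _ (Nat.zero_le 1) hn] at h2
      have h3 : ∑ i ∈ Ico 0 1, (2 : ℝ) ^ i / (i.factorial : ℝ) = 1 := by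
        rw [← range_eq_Ico, sum_range_succ, sum_range_zero]
        norm_num
      rw [h3] at h2
      linarith
    · rw [Ico_eq_empty (by omega), sum_empty]
      norm_num

end Pool.JM.LR
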