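import Pool.Agent.Work.MP_46fa68_56.RDefs

/-!
# MP_46fa68_co, block NR1: the numbers of row 1
-/

set_option autoImplicit false

open Finset

namespace Pool.JM.LR

namespace NR1Aux

theorem TB1 (m : ℕ) : TB m 1 = 7528 / 10000 + 51 / 50 / ((m : ℝ) - 2) := by
  unfold TB
  rw [if_pos rfl]
  congr 2
  push_cast
  ring

theorem TB2 (m : ℕ) : TB m 2 = 41405 / 100000 + 51 / 50 / ((m : ℝ) - 1) := by
  unfold TB
  rw [if_neg (by norm_num), if_pos rfl]
  congr 2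
  push_cast
  ring

theorem TB3 (m : ℕ) : TB m 3 = 2898 / 10000 + 51 / 50 / (m : ℝ) := by
  unfold TB
  rw [if_neg (by norm_num), if_neg (by norm_num), if_pos rfl]
  congr 2
  push_cast
  ring

/-- the function of (e) -/
noncomputable def gg (m i : ℕ) : ℝ :=
  cA m i * (51 / 50 / (i : ℝ) + 51 / 50 / ((m : ℝ) - 3 + i)) *
    (((m : ℝ) - i + 1) * (4 / 3) ^ (2 * i - 3))

theorem gg_step (hC : Stmt_CF) (m i : ℕ) (hm : 16 ≤ m) (hi : 4 ≤ i) (him : i + 9 ≤ m) :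
    gg m (i + 1) ≤ gg m i := by
  obtain ⟨_, _, _, _, _, hrec, _, _, _, hpos⟩ := hC m hm
  have hr := hrec i (by omega) (by omega)
  have hA := hpos i (by omega)
  have hm' : (16 : ℝ) ≤ m := by exact_mod_cast hm
  have hi' : (4 : ℝ) ≤ i := by exact_mod_cast hi
  have him' : (i : ℝ) + 9 ≤ m := by exact_mod_cast him
  unfold gg
  have e1 : 2 * (i + 1) - 3 = (2 * i - 3) + 2 := by omega
  rw [e1, pow_add]
  have hP : (0 : ℝ) < (4 / 3) ^ (2 * i - 3) := by positivity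
  generalize ((4 : ℝ) / 3) ^ (2 * i - 3) = P at *
  generalize cA m (i + 1) = A' at *
  generalize cA m i = A at *
  push_cast
  have h1 : A' * (((m : ℝ) - (i + 1) + 1)) = A * ((m : ℝ) - 2 + i) / i := by
    rw [eq_div_iff (by positivity)]
    have : A' * (i * ((m : ℝ) - i)) = A * ((m : ℝ) - 2 + i) := hr
    rw [← this]
    ring
  have hb : (51 : ℝ) / 50 / ((i : ℝ) + 1) + 51 / 50 / ((m : ℝ) - 3 + (i + 1)) ≤
      51 / 50 / (i : ℝ) + 51 / 50 / ((m : ℝ) - 3 + i) := by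
    have hx : (0 : ℝ) < (m : ℝ) - 3 + i := by linarith
    have := div_le_div_of_nonneg_left (c := (i : ℝ)) (b := (i : ℝ) + 1) (a := (51 : ℝ) / 50)
      (by norm_num) (by linarith) (by linarith)
    have := div_le_div_of_nonneg_left (c := (m : ℝ) - 3 + i) (b := (m : ℝ) - 3 + (i + 1))
      (a := (51 : ℝ) / 50) (by norm_num) hx (by linarith)
    linarith
  have hb0 : (0 : ℝ) ≤ 51 / 50 / (i : ℝ) + 51 / 50 / ((m : ℝ) - 3 + i) := by
    have hx : (0 : ℝ) < (m : ℝ) - 3 + i := by linarith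
    positivity
  have h2 : A * ((m : ℝ) - 2 + i) / i * (4 / 3) ^ 2 ≤ A * ((m : ℝ) - i + 1) := by
    rw [div_mul_eq_mul_div, div_le_iff₀ (by linarith), mul_assoc, mul_assoc]
    refine mul_le_mul_of_nonneg_left ?_ hA.le
    nlinarith
  calc A' * (51 / 50 / ((i : ℝ) + 1) + 51 / 50 / ((m : ℝ) - 3 + (i + 1))) *
        (((m : ℝ) - (i + 1) + 1) * (P * (4 / 3) ^ 2))
      = (A' * ((m : ℝ) - (i + 1) + 1)) *
        (51 / 50 / ((i : ℝ) + 1) + 51 / 50 / ((m : ℝ) - 3 + (i + 1))) * (P * (4 / 3) ^ 2) := by ring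
    _ = (A * ((m : ℝ) - 2 + i) / i * (4 / 3) ^ 2) *
        (51 / 50 / ((i : ℝ) + 1) + 51 / 50 / ((m : ℝ) - 3 + (i + 1))) * P := by rw [h1]; ring
    _ ≤ (A * ((m : ℝ) - i + 1)) * (51 / 50 / (i : ℝ) + 51 / 50 / ((m : ℝ) - 3 + i)) * P := by
        refine mul_le_mul_of_nonneg_right (mul_le_mul h2 hb ?_ ?_) hP.le
        · have hx : (0 : ℝ) < (m : ℝ) - 3 + (i + 1) := by linarith
          positivity
        · have : (0 : ℝ) ≤ (m : ℝ) - i + 1 := by linarith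
          positivity
    _ = A * (51 / 50 / (i : ℝ) + 51 / 50 / ((m : ℝ) - 3 + i)) * (((m : ℝ) - i + 1) * P) := by ring

theorem gg_four (hC : Stmt_CF) (m : ℕ) (hm : 16 ≤ m) : gg m 4 ≤ 24 / 100 := by
  obtain ⟨_, _, h3, _, _, hrec, _, _, _, _⟩ := hC m hm
  have hr := hrec 3 (by norm_num) (by omega)
  rw [h3] at hr
  have hm' : (16 : ℝ) ≤ m := by exact_mod_cast hm
  unfold gg
  have e1 : 2 * 4 - 3 = 5 := by norm_num
  rw [e1]
  push_cast at hr ⊢
  have h4 : cA m (3 + 1) = ((m : ℝ) + 1) / (6 * m * (m - 3)) := by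
    have hx : (0 : ℝ) < 6 * m * (m - 3) := by
      have : (0 : ℝ) < (m : ℝ) - 3 := by linarith
      positivity
    rw [eq_div_iff hx.ne']
    have hm0 : (m : ℝ) ≠ 0 := by linarith
    have : cA m (3 + 1) * (6 * m * (m - 3)) = (cA m (3 + 1) * (3 * ((m : ℝ) - 3))) * (2 * m) := by ring
    rw [this, hr]
    field_simp
    ring
  have h4' : cA m 4 = ((m : ℝ) + 1) / (6 * m * (m - 3)) := h4
  rw [h4']
  have hx : (0 : ℝ) < (m : ℝ) - 3 := by linarith
  have hy : (0 : ℝ) < (m : ℝ) + 1 := by linarith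
  have e2 : ((m : ℝ) + 1) / (6 * m * (m - 3)) * (51 / 50 / 4 + 51 / 50 / ((m : ℝ) - 3 + 4)) *
      (((m : ℝ) - 4 + 1) * (4 / 3) ^ 5) =
      (51 / 200 * ((m : ℝ) + 1) + 51 / 50) / (6 * m) * (4 / 3) ^ 5 := by
    have h5 : (m : ℝ) - 3 + 4 = m + 1 := by ring
    have h6 : (m : ℝ) - 4 + 1 = m - 3 := by ring
    rw [h5, h6]
    field_simp
    ring
  rw [e2, div_mul_eq_mul_div, div_le_iff₀ (by linarith)]
  nlinarith

theorem gg_le (hC : Stmt_CF) (m : ℕ) (hm : 16 ≤ m) (i : ℕ) (hi : 4 ≤ i) :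
    i + 8 ≤ m → gg m i ≤ 24 / 100 := by
  induction i, hi using Nat.le_induction with
  | base => exact fun _ => gg_four hC m hm
  | succ i hi ih =>
    intro h
    exact (gg_step hC m i hm hi (by omega)).trans (ih (by omega))

end NR1Aux

theorem blk_NR1 (hC : Stmt_CF) : Stmt_NR1 := by
  intro m hm
  obtain ⟨h1, h2, h3, _, _, _, _, _, _, _⟩ := hC m hm
  have hm' : (16 : ℝ) ≤ m := by exact_mod_cast hm
  have hm0 : (0 : ℝ) < m := by linarith
  have hm1 : (0 : ℝ) < (m : ℝ) - 1 := by linarith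
  have hm2 : (0 : ℝ) < (m : ℝ) - 2 := by linarith
  refine ⟨?_, ?_, ?_, ?_, ?_⟩
  · intro x hx1 hx2
    have hx1' : (1 : ℝ) ≤ x := by exact_mod_cast hx1
    have hx2' : (x : ℝ) + 2 ≤ m := by exact_mod_cast hx2
    have hmx : (0 : ℝ) < (m : ℝ) - x := by linarith
    rw [h1, NR1Aux.TB1]
    have hq : m * ((m : ℝ) + 1) / (((m : ℝ) - x) * ((x : ℝ) + 3)) ≤ m / 2 := by
      rw [div_le_div_iff₀ (by positivity) (by norm_num)]
      have : 0 ≤ ((m : ℝ) - x - 2) * (x + 1) := mul_nonneg (by linarith) (by linarith)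
      nlinarith
    have e1 : ((m : ℝ) - 2) / m ^ 2 * (7528 / 10000 + 51 / 50 / ((m : ℝ) - 2)) =
        (7528 / 10000 * ((m : ℝ) - 2) + 51 / 50) / m ^ 2 := by
      field_simp
    rw [e1]
    have h0 : (0 : ℝ) ≤ (7528 / 10000 * ((m : ℝ) - 2) + 51 / 50) / m ^ 2 := by positivity
    refine (mul_le_mul_of_nonneg_left hq h0).trans ?_
    have e2 : (7528 / 10000 * ((m : ℝ) - 2) + 51 / 50) / m ^ 2 * (m / 2) =
        (7528 / 10000 * ((m : ℝ) - 2) + 51 / 50) / (2 * m) := by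
      field_simp
    rw [e2, div_le_iff₀ (by linarith)]
    linarith
  · rw [h2, NR1Aux.TB2]
    have e1 : ((m : ℝ) - 2) / m ^ 2 * (41405 / 100000 + 51 / 50 / ((m : ℝ) - 1)) * m =
        (41405 / 100000 * ((m : ℝ) - 2) * (m - 1) + 51 / 50 * (m - 2)) / (m * (m - 1)) := by
      field_simp
    rw [e1, div_le_iff₀ (by positivity)]
    nlinarith
  · rw [h2, NR1Aux.TB2]
    have e1 : ((m : ℝ) - 2) / m ^ 2 * (41405 / 100000 + 51 / 50 / ((m : ℝ) - 1)) *
        (((m : ℝ) - 1) / 2 * (m / ((m : ℝ) - 2))) =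
        (41405 / 100000 * ((m : ℝ) - 1) + 51 / 50) / (2 * m) := by
      field_simp
    rw [e1, div_le_iff₀ (by linarith)]
    linarith
  · rw [h3, NR1Aux.TB3]
    have e1 : 1 / (2 * (m : ℝ)) * (2898 / 10000 + 51 / 50 / (m : ℝ)) *
        (((m : ℝ) - 2) * (5 / 4) ^ 3) =
        (2898 / 10000 * m + 51 / 50) * (m - 2) * (125 / 128) / m ^ 2 := by
      field_simp
      ring
    rw [e1, div_le_iff₀ (by positivity)]
    nlinarith
  · intro i hi him
    exact NR1Aux.gg_le hC m hm i hi him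

end Pool.JM.LR
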