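import Pool.Agent.Work.MP_46fa68_56.RDefs

/-!
# MP_46fa68_co, block TTN: the numbers `Tq`
-/

set_option autoImplicit false

open Finset

namespace Pool.JM.LR

namespace TTNAux

/-- the term of `Tq m p 0` -/
noncomputable def ft (p q : ℕ) : ℝ := ww q / ((q.factorial : ℝ) * ((p : ℝ) + q))

theorem ft_nonneg (hA : Stmt_WWA) (p q : ℕ) : 0 ≤ ft p q := by
  have h := hA.1 q
  unfold ft
  positivity

theorem ft_half (hA : Stmt_WWA) (p q : ℕ) (hp : 1 ≤ p) (hq : 1 ≤ q) : 2 * ft p (q + 1) ≤ ft p q := by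
  have h0 := hA.1 q
  have h1 := hA.2.1 q (q + 1) (Nat.le_succ q)
  have hp' : (1 : ℝ) ≤ p := by exact_mod_cast hp
  have hq' : (1 : ℝ) ≤ q := by exact_mod_cast hq
  have hf : (0 : ℝ) < (q.factorial : ℝ) := by exact_mod_cast Nat.factorial_pos q
  unfold ft
  rw [← mul_div_assoc, div_le_div_iff₀ (by positivity) (by positivity)]
  rw [Nat.factorial_succ]
  push_cast
  have h2 : 2 * ((q.factorial : ℝ) * ((p : ℝ) + q)) ≤
      (((q : ℝ) + 1) * (q.factorial : ℝ)) * ((p : ℝ) + ((q : ℝ) + 1)) := by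
    have h3 : 2 * ((p : ℝ) + q) ≤ ((q : ℝ) + 1) * ((p : ℝ) + ((q : ℝ) + 1)) := by nlinarith
    calc 2 * ((q.factorial : ℝ) * ((p : ℝ) + q)) = (q.factorial : ℝ) * (2 * ((p : ℝ) + q)) := by ring
      _ ≤ (q.factorial : ℝ) * (((q : ℝ) + 1) * ((p : ℝ) + ((q : ℝ) + 1))) := by gcongr
      _ = _ := by ring
  calc 2 * ww (q + 1) * ((q.factorial : ℝ) * ((p : ℝ) + q))
      = ww (q + 1) * (2 * ((q.factorial : ℝ) * ((p : ℝ) + q))) := by ring
    _ ≤ ww q * (2 * ((q.factorial : ℝ) * ((p : ℝ) + q))) := by gcongr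
    _ ≤ ww q * ((((q : ℝ) + 1) * (q.factorial : ℝ)) * ((p : ℝ) + ((q : ℝ) + 1))) := by gcongr

theorem sum_bound (hA : Stmt_WWA) (p : ℕ) (hp : 1 ≤ p) (B : ℝ)
    (hB : ∑ q ∈ range 8, ft p q + 2 * ft p 8 ≤ B) (n : ℕ) : ∑ q ∈ range n, ft p q ≤ B := by
  have hbig : ∀ k, ∑ q ∈ range (8 + k), ft p q + 2 * ft p (8 + k) ≤ B := by
    intro k
    induction k with
    | zero => exact hB
    | succ k ih =>
      rw [← Nat.add_assoc, sum_range_succ]
      have h1 := ft_half hA p (8 + k) hp (by omega)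
      linarith
  have h2 : ∑ q ∈ range n, ft p q ≤ ∑ q ∈ range (8 + n), ft p q :=
    sum_le_sum_of_subset_of_nonneg (range_subset_range.2 (by omega)) fun q _ _ => ft_nonneg hA p q
  have h3 := hbig n
  have h4 := ft_nonneg hA p (8 + n)
  linarith

theorem Tq_zero (m p : ℕ) : Tq m p 0 = ∑ q ∈ range (m - 3), ft p q := by
  unfold Tq ft
  refine sum_congr rfl fun q _ => ?_
  rw [Nat.max_eq_left (Nat.zero_le q)]

theorem tele (n : ℕ) :
    ∑ q ∈ range n, 1 / ((q.factorial : ℝ) * (((2 : ℕ) : ℝ) + q)) = 1 - 1 / ((n + 1).factorial : ℝ) := by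
  induction n with
  | zero => simp
  | succ n ih =>
    rw [sum_range_succ, ih]
    have hf : (n.factorial : ℝ) ≠ 0 := by exact_mod_cast Nat.factorial_ne_zero n
    have h1 : ((n : ℝ) + 1) ≠ 0 := by positivity
    have h2 : ((n : ℝ) + 2) ≠ 0 := by positivity
    have h3 : ((n : ℝ) + 1 + 1) ≠ 0 := by positivity
    rw [Nat.factorial_succ (n + 1), Nat.factorial_succ n]
    push_cast
    have h4 : (2 + (n : ℝ)) ≠ 0 := by positivity
    field_simp
    ring

end TTNAux

open TTNAux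

theorem blk_TTN (hA : Stmt_WWA) : Stmt_TTN := by
  intro m
  refine ⟨?_, ?_, ?_, ?_, ?_, ?_⟩
  · rw [Tq_zero]
    refine sum_bound hA 1 le_rfl _ ?_ _
    simp only [sum_range_succ, range_zero, sum_empty, ft, ww, Nat.factorial]
    norm_num
  · rw [Tq_zero]
    refine sum_bound hA 2 (by norm_num) _ ?_ _
    simp only [sum_range_succ, range_zero, sum_empty, ft, ww, Nat.factorial]
    norm_num
  · rw [Tq_zero]
    refine sum_bound hA 3 (by norm_num) _ ?_ _
    simp only [sum_range_succ, range_zero, sum_empty, ft, ww, Nat.factorial]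
    norm_num
  · rw [Tq_zero]
    refine sum_bound hA 4 (by norm_num) _ ?_ _
    simp only [sum_range_succ, range_zero, sum_empty, ft, ww, Nat.factorial]
    norm_num
  · intro p j hp
    have hp' : (1 : ℝ) ≤ p := by exact_mod_cast hp
    have h0 : (0 : ℝ) < p := by linarith
    have h1 : Tq m p j ≤ ∑ q ∈ range (m - 3), ww q / (q.factorial : ℝ) / p := by
      unfold Tq
      refine sum_le_sum fun q _ => ?_
      have hf : (0 : ℝ) < (q.factorial : ℝ) := by exact_mod_cast Nat.factorial_pos q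
      have hw := hA.2.1 q (max q j) (le_max_left q j)
      have hq := hA.1 q
      have hm := hA.1 (max q j)
      rw [div_div]
      have h5 : (q.factorial : ℝ) * p ≤ (q.factorial : ℝ) * ((p : ℝ) + q) := by
        have : (0 : ℝ) ≤ q := Nat.cast_nonneg q
        gcongr
        linarith
      exact div_le_div₀ hq.le hw (by positivity) h5
    rw [← sum_div] at h1
    refine h1.trans ?_
    have h2 := hA.2.2 (m - 3)
    gcongr
  · intro j _
    have h1 : Tq m 2 j ≤ ∑ q ∈ range (m - 3), ww j * (1 / ((q.factorial : ℝ) * (((2 : ℕ) : ℝ) + q))) := by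
      unfold Tq
      refine sum_le_sum fun q _ => ?_
      have hw := hA.2.1 j (max q j) (le_max_right q j)
      rw [mul_one_div]
      gcongr
    rw [← mul_sum, tele] at h1
    have h2 := hA.1 j
    have h3 : (0 : ℝ) < 1 / ((m - 3 + 1).factorial : ℝ) := by
      have := Nat.factorial_pos (m - 3 + 1)
      positivity
    nlinarith

end Pool.JM.LR
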