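import Pool.Agent.Work.MP_46fa68_11.Bridge

/-!
# MP_46fa68_co: blocks BASIC and RANK
-/

set_option autoImplicit false

open Finset

namespace Pool.JM.LR

/-- the distances to the beads above when the top bead is singled out -/
theorem da_ge_top {B : Finset ℕ} {x X : ℕ} (hX : X ∈ B) (hxX : x < X) :
    ((X : ℝ) - x) * ((upr B x - 1).factorial : ℝ) ≤ da B x := by
  have h1 : B.filter (x < ·) = insert X ((B.erase X).filter (x < ·)) := by
    ext y
    simp only [mem_filter, mem_insert, mem_erase]
    constructor
    · rintro ⟨h1, h2⟩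
      by_cases h : y = X
      · exact Or.inl h
      · exact Or.inr ⟨⟨h, h1⟩, h2⟩
    · rintro (rfl | ⟨⟨-, h1⟩, h2⟩)
      · exact ⟨hX, hxX⟩
      · exact ⟨h1, h2⟩
  have h2 : X ∉ (B.erase X).filter (x < ·) := fun h => (mem_erase.1 (mem_filter.1 h).1).1 rfl
  have h3 : upr B x = upr (B.erase X) x + 1 := by
    unfold upr
    rw [h1, card_insert_of_notMem h2]
  have h4 : da B x = ((X : ℝ) - x) * da (B.erase X) x := by
    unfold da
    rw [h1, prod_insert h2]
  rw [h3, h4, Nat.add_sub_cancel]
  have h5 : (x : ℝ) < X := by exact_mod_cast hxX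
  exact mul_le_mul_of_nonneg_left (da_ge (B.erase X) x) (by linarith)

theorem blk_BASIC : Stmt_BASIC := by
  intro K n B hB x hx
  have hr := rk_eq hx
  have hsp := Lv_spec hB
  have hcard := blw_add_upr hx
  rw [hsp.1] at hcard
  rw [gp_eq, bx_eq, hk_eq', up_eq, hr]
  have hpos := pos_eq hB hx
  have hln := ln_add B x
  refine ⟨by omega, ?_, by omega, by omega, ?_, da_pos B x, hk_pos B x, fun z hz hzx => ?_, ?_,
    fun X hX hXt hxX => ⟨?_, ?_⟩, fun X hX hXt => ?_, fun X hX hXt y hy hyX hyt => ?_⟩
  · have := upr_mul_ln hB hx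
    omega
  · rw [ex_erase' hx, mul_comm]
  · rw [gp_eq]
    exact ln_mono hz hzx
  · rw [Nat.add_sub_cancel]
    exact da_ge B x
  · exact da_ge_top hX hxX
  · rw [gp_eq, Nat.add_sub_cancel]
    have h1 := boxes hB hx
    have h2 : B.filter (x < ·) = insert X ((B.erase X).filter (x < ·)) := by
      ext y
      simp only [mem_filter, mem_insert, mem_erase]
      constructor
      · rintro ⟨h1, h2⟩
        by_cases h : y = X
        · exact Or.inl h
        · exact Or.inr ⟨⟨h, h1⟩, h2⟩
      · rintro (rfl | ⟨⟨-, h1⟩, h2⟩)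
        · exact ⟨hX, hxX⟩
        · exact ⟨h1, h2⟩
    have h3 : X ∉ (B.erase X).filter (x < ·) := fun h => (mem_erase.1 (mem_filter.1 h).1).1 rfl
    have h4 : upr B x = ((B.erase X).filter (x < ·)).card + 1 := by
      unfold upr
      rw [h2, card_insert_of_notMem h3]
    have h5 : ((B.erase X).filter (x < ·)).card * ln B x ≤
        ∑ b ∈ (B.erase X).filter (x < ·), ln B b := by
      rw [← smul_eq_mul, ← sum_const]
      refine sum_le_sum fun b hb => ln_mono hx (mem_filter.1 hb).2.le
    rw [h2, sum_insert h3] at h1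
    have h6 : upr B x * ln B x = ((B.erase X).filter (x < ·)).card * ln B x + ln B x := by
      rw [h4]
      ring
    omega
  · rw [gp_eq, bx_eq]
    have := (top_row hB hX hXt).2
    omega
  · rw [gp_eq, gp_eq, bx_eq]
    have := (second_row hB hX hy hyX fun z hz hne => hyt z hz (lt_of_le_of_ne (hXt z hz) hne)).2
    omega

theorem blk_RANK : Stmt_RANK := by
  intro B f
  induction B using Finset.induction_on_min with
  | empty => simp
  | insert a S ha ih =>
    have hn : a ∉ S := fun h => lt_irrefl a (ha a h)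
    have h1 : LR.rk (insert a S) a = S.card + 1 := by
      unfold LR.rk
      rw [filter_true_of_mem, card_insert_of_notMem hn]
      intro y hy
      rcases mem_insert.1 hy with rfl | hy
      · exact le_rfl
      · exact (ha y hy).le
    have h2 : ∑ x ∈ S, f (LR.rk (insert a S) x) = ∑ x ∈ S, f (LR.rk S x) := by
      refine sum_congr rfl fun y hy => ?_
      congr 1
      unfold LR.rk
      rw [filter_insert, if_neg (by have := ha y hy; omega)]
    rw [sum_insert hn, h1, h2, ih, card_insert_of_notMem hn,
      Finset.sum_Icc_succ_top (by omega : 1 ≤ S.card + 1)]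
    ring

end Pool.JM.LR
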